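import Mathlib

/-!
A Banach space over the real or the complex field with numerical index one, an extreme point of its unit
ball and an extreme point of its dual unit ball which annihilate each other.

The space `E 𝕜`: bounded continuous functions on the disjoint union of a countable discrete set of triples
(n, k, b) and the real line such that f(n,k,true) - f(n,k,false) tends to f(q n) / 2^n for every n.
-/

set_option autoImplicit false
open Filter Topology BoundedContinuousFunction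

namespace Pool.Agent.H.MP_ae5379_an.h81

section General

variable {𝕜 : Type} [RCLike 𝕜] {K : Type} [TopologicalSpace K]
variable {X : Type} [NormedAddCommGroup X] [NormedSpace 𝕜 X]

/-- A richness condition: bump functions supported (up to ε) in arbitrary nonempty open sets. -/
def Rich (J : X →ₗᵢ[𝕜] (K →ᵇ 𝕜)) : Prop :=
  ∀ U : Set K, IsOpen U → U.Nonempty → ∀ ε : ℝ, 0 < ε →
    ∃ (h : X) (β : K → ℝ), (∃ t ∈ U, β t = 1) ∧ (∀ s, J h s = (β s : 𝕜)) ∧
      (∀ s, 0 ≤ β s ∧ β s ≤ 1) ∧ (∀ s, s ∉ U → β s ≤ ε)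

theorem exists_unit (lam : 𝕜) : ∃ u : 𝕜, ‖u‖ = 1 ∧ lam = ((‖lam‖ : ℝ) : 𝕜) * u := by
  by_cases h : lam = 0
  · exact ⟨1, norm_one, by simp [h]⟩
  · have h1 : ‖lam‖ ≠ 0 := norm_ne_zero_iff.2 h
    have h2 : ((‖lam‖ : ℝ) : 𝕜) ≠ 0 := by exact_mod_cast h1
    refine ⟨lam / ((‖lam‖ : ℝ) : 𝕜), ?_, ?_⟩
    · rw [norm_div, RCLike.norm_ofReal, abs_norm, div_self h1]
    · field_simp

theorem exists_align (z w : 𝕜) (a : ℝ) (ha : 0 ≤ a) :
    ∃ b : 𝕜, ‖b‖ = a ∧ ‖z + b * w‖ = ‖z‖ + a * ‖w‖ := by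
  obtain ⟨u, hu, hz⟩ := exists_unit z
  obtain ⟨v, hv, hw⟩ := exists_unit w
  have hv0 : v ≠ 0 := by
    intro h
    rw [h, norm_zero] at hv
    exact zero_ne_one hv
  refine ⟨(a : 𝕜) * u / v, ?_, ?_⟩
  · rw [norm_div, norm_mul, hu, hv, RCLike.norm_ofReal, abs_of_nonneg ha]; ring
  · have e : z + (a : 𝕜) * u / v * w = ((‖z‖ + a * ‖w‖ : ℝ) : 𝕜) * u := by
      rw [hw, norm_mul, RCLike.norm_ofReal, abs_norm, hv, mul_one]
      nth_rewrite 1 [hz]
      push_cast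
      field_simp
    rw [e, norm_mul, hu, mul_one, RCLike.norm_ofReal, abs_of_nonneg (by positivity)]

/-- almost norming pairs -/
theorem almost_pair (J : X →ₗᵢ[𝕜] (K →ᵇ 𝕜)) (hX : Rich J) (T : X →L[𝕜] X) (η : ℝ) (hη : 0 < η)
    (hη' : η < ‖T‖) :
    ∃ (x : X) (t : K), ‖x‖ ≤ 1 + 3 * η ∧ 1 - η ≤ ‖J x t‖ ∧
      ‖T‖ - η < ‖J (T x) t‖ := by
  obtain ⟨x, hx, hTx⟩ := ContinuousLinearMap.exists_lt_apply_of_lt_opNorm T
    (show ‖T‖ - η < ‖T‖ by linarith)
  obtain ⟨t₀, ht₀⟩ : ∃ t₀, ‖T‖ - η < ‖J (T x) t₀‖ := by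
    by_contra hcon
    push Not at hcon
    have : ‖J (T x)‖ ≤ ‖T‖ - η := by
      rw [BoundedContinuousFunction.norm_le (by linarith)]
      exact hcon
    rw [J.norm_map] at this
    linarith
  obtain ⟨u, hu, hlam⟩ := exists_unit (J x t₀)
  obtain ⟨r, hr⟩ : ∃ r : ℝ, r = ‖J x t₀‖ := ⟨_, rfl⟩
  rw [← hr] at hlam
  have hxs : ∀ s, ‖J x s‖ ≤ 1 := fun s =>
    (BoundedContinuousFunction.norm_coe_le_norm (J x) s).trans (by rw [J.norm_map]; exact hx.le)
  have hr0 : 0 ≤ r := by rw [hr]; exact norm_nonneg _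
  have hr1 : r ≤ 1 := by rw [hr]; exact hxs _
  let U : Set K := {s | ‖T‖ - η < ‖J (T x) s‖} ∩ {s | ‖J x s - (r : 𝕜) * u‖ < η}
  have hU : IsOpen U := by
    apply IsOpen.inter
    · exact isOpen_lt continuous_const (BoundedContinuousFunction.continuous _).norm
    · exact isOpen_lt ((BoundedContinuousFunction.continuous _).sub continuous_const).norm
        continuous_const
  obtain ⟨h, β, ⟨t, htU, ht1⟩, hJh, hβ, hβU⟩ := hX U hU ⟨t₀, ht₀, by simp [← hlam, hη]⟩ η hη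
  have htU1 : ‖T‖ - η < ‖J (T x) t‖ := htU.1
  have htU2 : ‖J x t - (r : 𝕜) * u‖ < η := htU.2
  let x₁ : X := x + (((1 - r : ℝ) : 𝕜) * u) • h
  let x₂ : X := x - (((1 + r : ℝ) : 𝕜) * u) • h
  have e1 : ∀ s, J x₁ s = J x s + (((1 - r) * β s : ℝ) : 𝕜) * u := fun s => by
    have : J x₁ s = J x s + (((1 - r : ℝ) : 𝕜) * u) * J h s := by simp [x₁]
    rw [this, hJh]; push_cast; ring
  have e2 : ∀ s, J x₂ s = J x s - (((1 + r) * β s : ℝ) : 𝕜) * u := fun s => by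
    have : J x₂ s = J x s - (((1 + r : ℝ) : 𝕜) * u) * J h s := by simp [x₂]
    rw [this, hJh]; push_cast; ring
  have n1 : ‖x₁‖ ≤ 1 + 3 * η := by
    rw [← J.norm_map, BoundedContinuousFunction.norm_le (by linarith)]
    intro s
    rw [e1 s]
    obtain ⟨hs1, hs2⟩ := hβ s
    by_cases hsU : s ∈ U
    · have hs3 : ‖J x s - (r : 𝕜) * u‖ < η := hsU.2
      have e : J x s + (((1 - r) * β s : ℝ) : 𝕜) * u =
          (J x s - (r : 𝕜) * u) + ((r + (1 - r) * β s : ℝ) : 𝕜) * u := by push_cast; ring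
      rw [e]
      refine (norm_add_le _ _).trans ?_
      rw [norm_mul, hu, mul_one, RCLike.norm_ofReal]
      have : |r + (1 - r) * β s| ≤ 1 := by rw [abs_le]; constructor <;> nlinarith
      linarith
    · refine (norm_add_le _ _).trans ?_
      rw [norm_mul, hu, mul_one, RCLike.norm_ofReal]
      have hs4 := hβU s hsU
      have : |(1 - r) * β s| ≤ η := by rw [abs_le]; constructor <;> nlinarith
      linarith [hxs s]
  have n2 : ‖x₂‖ ≤ 1 + 3 * η := by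
    rw [← J.norm_map, BoundedContinuousFunction.norm_le (by linarith)]
    intro s
    rw [e2 s]
    obtain ⟨hs1, hs2⟩ := hβ s
    by_cases hsU : s ∈ U
    · have hs3 : ‖J x s - (r : 𝕜) * u‖ < η := hsU.2
      have e : J x s - (((1 + r) * β s : ℝ) : 𝕜) * u =
          (J x s - (r : 𝕜) * u) + ((r - (1 + r) * β s : ℝ) : 𝕜) * u := by push_cast; ring
      rw [e]
      refine (norm_add_le _ _).trans ?_
      rw [norm_mul, hu, mul_one, RCLike.norm_ofReal]
      have : |r - (1 + r) * β s| ≤ 1 := by rw [abs_le]; constructor <;> nlinarith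
      linarith
    · refine (norm_sub_le _ _).trans ?_
      rw [norm_mul, hu, mul_one, RCLike.norm_ofReal]
      have hs4 := hβU s hsU
      have : |(1 + r) * β s| ≤ 2 * η := by rw [abs_le]; constructor <;> nlinarith
      linarith [hxs s]
  -- values at t
  have v1 : 1 - η ≤ ‖J x₁ t‖ := by
    have e : u = J x₁ t - (J x t - (r : 𝕜) * u) := by rw [e1 t, ht1]; push_cast; ring
    have h1 : ‖u‖ ≤ ‖J x₁ t‖ + ‖J x t - (r : 𝕜) * u‖ := by
      nth_rewrite 1 [e]; exact norm_sub_le _ _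
    linarith
  have v2 : 1 - η ≤ ‖J x₂ t‖ := by
    have e : u = (J x t - (r : 𝕜) * u) - J x₂ t := by rw [e2 t, ht1]; push_cast; ring
    have h1 : ‖u‖ ≤ ‖J x t - (r : 𝕜) * u‖ + ‖J x₂ t‖ := by
      nth_rewrite 1 [e]; exact norm_sub_le _ _
    linarith
  have hcomb : J (T x) t = (((1 + r) / 2 : ℝ) : 𝕜) * J (T x₁) t
      + (((1 - r) / 2 : ℝ) : 𝕜) * J (T x₂) t := by
    have h1 : J (T x₁) t = J (T x) t + (((1 - r : ℝ) : 𝕜) * u) * J (T h) t := by
      simp [x₁]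
    have h2 : J (T x₂) t = J (T x) t - (((1 + r : ℝ) : 𝕜) * u) * J (T h) t := by
      simp [x₂]
    rw [h1, h2]; push_cast; ring
  by_cases hc : ‖T‖ - η < ‖J (T x₁) t‖
  · exact ⟨x₁, t, n1, v1, hc⟩
  · refine ⟨x₂, t, n2, v2, ?_⟩
    by_contra hc2
    push Not at hc hc2
    have h1 : ‖J (T x) t‖ ≤ (1 + r) / 2 * ‖J (T x₁) t‖ + (1 - r) / 2 * ‖J (T x₂) t‖ := by
      rw [hcomb]
      refine (norm_add_le _ _).trans ?_
      rw [norm_mul, norm_mul, RCLike.norm_ofReal, RCLike.norm_ofReal, abs_of_nonneg (by linarith),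
        abs_of_nonneg (by linarith)]
    nlinarith

end General

/-- rich spaces have numerical index one -/
theorem numerical_index_one {𝕜 : Type} [RCLike 𝕜] {K : Type} [TopologicalSpace K]
    {X : Type} [NormedAddCommGroup X] [NormedSpace 𝕜 X] (J : X →ₗᵢ[𝕜] (K →ᵇ 𝕜)) (hX : Rich J)
    (hne : ∃ x : X, x ≠ 0) (T : X →L[𝕜] X) (ε : ℝ) (hε : 0 < ε) :
    ∃ (x : X) (f : X →L[𝕜] 𝕜), ‖x‖ = 1 ∧ ‖f‖ = 1 ∧ f x = 1 ∧ ‖T‖ - ε < ‖f (T x)‖ := by
  by_contra hcon
  push Not at hcon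
  obtain ⟨N, hN⟩ : ∃ N : ℝ, N = ‖T‖ := ⟨_, rfl⟩
  obtain ⟨M, hM⟩ : ∃ M : ℝ, M = N - ε := ⟨_, rfl⟩
  have hM' : ∀ (x : X) (f : X →L[𝕜] 𝕜), x ≠ 0 → ‖f‖ = 1 → f x = ((‖x‖ : ℝ) : 𝕜) →
      ‖f (T x)‖ ≤ M * ‖x‖ := by
    intro x f hx h2 h3
    have hxn : ‖x‖ ≠ 0 := norm_ne_zero_iff.2 hx
    have hxp : 0 < ‖x‖ := norm_pos_iff.2 hx
    have hxk : ((‖x‖ : ℝ) : 𝕜) ≠ 0 := by exact_mod_cast hxn
    have h4 := hcon ((((‖x‖ : ℝ) : 𝕜)⁻¹) • x) f
      (by rw [norm_smul, norm_inv, RCLike.norm_ofReal, abs_norm, inv_mul_cancel₀ hxn]) h2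
      (by rw [map_smul, h3, smul_eq_mul, inv_mul_cancel₀ hxk])
    rw [map_smul, map_smul, norm_smul, norm_inv, RCLike.norm_ofReal, abs_norm, inv_mul_eq_div,
      div_le_iff₀ hxp] at h4
    rw [hM, hN]
    exact h4
  have hM0 : 0 ≤ M := by
    obtain ⟨x, hx⟩ := hne
    have hxn : ‖x‖ ≠ 0 := norm_ne_zero_iff.2 hx
    obtain ⟨f, hf1, hf2⟩ := exists_dual_vector 𝕜 x hxn
    have h1 := le_trans (norm_nonneg _) (hM' x f hx hf1 hf2)
    have hxp : 0 < ‖x‖ := norm_pos_iff.2 hx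
    by_contra h2
    push Not at h2
    nlinarith
  have hNM : M < N := by linarith
  have hN0 : 0 < N := by linarith
  -- Claim 1
  have claim1 : ∀ (a : 𝕜), ∀ x : X, (1 - ‖a‖ * M) * ‖x‖ ≤ ‖x - a • T x‖ := by
    intro a x
    by_cases hx : x = 0
    · simp [hx]
    have hxn : ‖x‖ ≠ 0 := norm_ne_zero_iff.2 hx
    obtain ⟨f, hf1, hf2⟩ := exists_dual_vector 𝕜 x hxn
    have h1 := hM' x f hx hf1 hf2
    have h2 : ‖f (x - a • T x)‖ ≤ ‖x - a • T x‖ := by
      have h3 := f.le_opNorm (x - a • T x)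
      rwa [hf1, one_mul] at h3
    have h4 : f (x - a • T x) = ((‖x‖ : ℝ) : 𝕜) - a * f (T x) := by
      rw [map_sub, map_smul, hf2, smul_eq_mul]
    have h5 : ‖x‖ ≤ ‖f (x - a • T x)‖ + ‖a‖ * ‖f (T x)‖ := by
      have e : ((‖x‖ : ℝ) : 𝕜) = f (x - a • T x) + a * f (T x) := by rw [h4]; ring
      have h6 : ‖((‖x‖ : ℝ) : 𝕜)‖ ≤ ‖f (x - a • T x)‖ + ‖a * f (T x)‖ := by
        nth_rewrite 1 [e]; exact norm_add_le _ _
      rwa [RCLike.norm_ofReal, abs_norm, norm_mul] at h6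
    have h7 := mul_le_mul_of_nonneg_left h1 (norm_nonneg a)
    nlinarith
  -- Claim 2
  have claim2 : ∀ (a : 𝕜), ∀ x : X, (1 - ‖a‖ * M) * ‖x + a • T x‖ ≤
      (1 + ‖a‖^2 * N^2) * ‖x‖ := by
    intro a x
    refine le_trans (claim1 a (x + a • T x)) ?_
    have h1 : x + a • T x - a • T (x + a • T x) = x - (a^2) • T (T x) := by
      rw [map_add, map_smul, smul_add, smul_smul, pow_two]; abel
    rw [h1]
    calc ‖x - (a^2) • T (T x)‖ ≤ ‖x‖ + ‖(a^2) • T (T x)‖ := norm_sub_le _ _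
      _ = ‖x‖ + ‖a‖^2 * ‖T (T x)‖ := by rw [norm_smul, norm_pow]
      _ ≤ ‖x‖ + ‖a‖^2 * (N * (N * ‖x‖)) := by
          have h2 : ‖T (T x)‖ ≤ N * (N * ‖x‖) := by
            rw [hN]
            exact le_trans (T.le_opNorm _) (mul_le_mul_of_nonneg_left (T.le_opNorm _) (norm_nonneg _))
          have := mul_le_mul_of_nonneg_left h2 (sq_nonneg ‖a‖)
          linarith
      _ = (1 + ‖a‖^2 * N^2) * ‖x‖ := by ring
  -- the choice of a
  obtain ⟨a, ha⟩ : ∃ a : ℝ, a = (N - M) / (2 * (N^2 + M*N)) := ⟨_, rfl⟩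
  have hden : 0 < 2 * (N^2 + M*N) := by positivity
  have ha0 : 0 < a := by rw [ha]; exact div_pos (by linarith) hden
  have haeq : a * (2 * (N^2 + M*N)) = N - M := by
    rw [ha]; field_simp
  have haM : a * M ≤ 1 := by
    have h1 : a * (2 * N^2) ≤ N := by nlinarith [mul_nonneg ha0.le (mul_nonneg hM0 hN0.le)]
    have h2 : a * (2 * N) ≤ 1 := by
      by_contra hc
      push Not at hc
      nlinarith
    nlinarith
  -- main inequality
  have key : ∀ η : ℝ, 0 < η → η < N → (1 - a * M) * (1 - η + a * (N - η)) ≤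
      (1 + a^2 * N^2) * (1 + 3 * η) := by
    intro η hη hηN
    obtain ⟨x, t, hx1, hx2, hx3⟩ := almost_pair J hX T η hη (by rw [← hN]; exact hηN)
    rw [← hN] at hx3
    obtain ⟨b, hb1, hb3⟩ := exists_align (J x t) (J (T x) t) a ha0.le
    have hpt : ‖J x t + b * J (T x) t‖ ≤ ‖x + b • T x‖ := by
      have h1 := BoundedContinuousFunction.norm_coe_le_norm (J (x + b • T x)) t
      rw [J.norm_map] at h1
      simpa using h1
    have h1 := claim2 b x
    rw [hb1] at h1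
    have h2 : 1 - η + a * (N - η) ≤ ‖x + b • T x‖ := by
      refine le_trans ?_ hpt
      rw [hb3]
      have := mul_le_mul_of_nonneg_left hx3.le ha0.le
      linarith
    calc (1 - a * M) * (1 - η + a * (N - η)) ≤ (1 - a * M) * ‖x + b • T x‖ :=
          mul_le_mul_of_nonneg_left h2 (by linarith)
      _ ≤ (1 + a^2 * N^2) * ‖x‖ := h1
      _ ≤ (1 + a^2 * N^2) * (1 + 3 * η) := mul_le_mul_of_nonneg_left hx1 (by positivity)
  -- conclusion
  obtain ⟨g, hg⟩ : ∃ g : ℝ, g = (1 - a * M) * (1 + a * N) - (1 + a^2 * N^2) := ⟨_, rfl⟩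
  have hgpos : 0 < g := by
    have : g = a * ((N - M) - a * (N^2 + M * N)) := by rw [hg]; ring
    rw [this]
    apply mul_pos ha0
    linarith
  obtain ⟨C, hC⟩ : ∃ C : ℝ, C = (1 - a * M) * (1 + a) + 3 * (1 + a^2 * N^2) := ⟨_, rfl⟩
  have hCpos : 0 < C := by
    rw [hC]
    have h1 : 0 ≤ (1 - a * M) * (1 + a) := mul_nonneg (by linarith) (by linarith)
    positivity
  obtain ⟨η, hη⟩ : ∃ η : ℝ, η = min (g / (2 * C)) (N / 2) := ⟨_, rfl⟩
  have hη0 : 0 < η := by rw [hη]; exact lt_min (by positivity) (by positivity)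
  have hη1 : η ≤ g / (2 * C) := by rw [hη]; exact min_le_left _ _
  have hη2 : η < N := by
    have : η ≤ N / 2 := by rw [hη]; exact min_le_right _ _
    linarith
  have h1 := key η hη0 hη2
  have h2 : g ≤ η * C := by
    rw [hg, hC]; nlinarith
  have h3 : η * C ≤ g / 2 := by
    calc η * C ≤ g / (2 * C) * C := mul_le_mul_of_nonneg_right hη1 hCpos.le
      _ = g / 2 := by field_simp
  linarith

section Space

variable (𝕜 : Type) [RCLike 𝕜]

/-- the index space: a countable discrete part and a real line -/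
abbrev K : Type := (ℕ × ℕ × Bool) ⊕ ℝ

/-- a dense sequence of reals -/
noncomputable def q : ℕ → ℝ := TopologicalSpace.denseSeq ℝ

/-- the subspace defined by the limit conditions -/
noncomputable def X0 : Submodule 𝕜 (K →ᵇ 𝕜) where
  carrier := {f | ∀ n : ℕ, Tendsto (fun k : ℕ => f (Sum.inl (n, k, true)) - f (Sum.inl (n, k, false)))
    atTop (𝓝 ((((1/2 : ℝ)^n : ℝ) : 𝕜) * f (Sum.inr (q n))))}
  add_mem' := by
    intro f g hf hg n
    have := (hf n).add (hg n)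
    simp only [BoundedContinuousFunction.coe_add, Pi.add_apply]
    rw [mul_add]
    refine this.congr fun k => ?_
    ring
  zero_mem' := by
    intro n
    simp
  smul_mem' := by
    intro c f hf n
    have := (hf n).const_mul c
    simp only [BoundedContinuousFunction.coe_smul, smul_eq_mul]
    have e : (((1/2 : ℝ)^n : ℝ) : 𝕜) * (c * f (Sum.inr (q n))) =
      c * ((((1/2 : ℝ)^n : ℝ) : 𝕜) * f (Sum.inr (q n))) := by ring
    rw [e]
    refine this.congr fun k => ?_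
    ring

variable {𝕜} in
theorem mem_X0 (f : K →ᵇ 𝕜) : f ∈ X0 𝕜 ↔ ∀ n : ℕ, Tendsto (fun k : ℕ => f (Sum.inl (n, k, true)) -
    f (Sum.inl (n, k, false))) atTop (𝓝 ((((1/2 : ℝ)^n : ℝ) : 𝕜) * f (Sum.inr (q n)))) := Iff.rfl

theorem isClosed_X0 : IsClosed (X0 𝕜 : Set (K →ᵇ 𝕜)) := by
  apply isClosed_of_closure_subset
  intro f hf
  rw [Metric.mem_closure_iff] at hf
  intro n
  rw [Metric.tendsto_atTop]
  intro ε hε
  obtain ⟨g, hg, hfg⟩ := hf (ε/6) (by positivity)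
  have hd : ∀ s, ‖f s - g s‖ < ε/6 := by
    intro s
    have h1 := BoundedContinuousFunction.dist_coe_le_dist (f := f) (g := g) s
    rw [dist_eq_norm] at h1
    linarith
  have hgn := hg n
  rw [Metric.tendsto_atTop] at hgn
  obtain ⟨k₀, hk₀⟩ := hgn (ε/2) (by positivity)
  refine ⟨k₀, fun k hk => ?_⟩
  have h1 := hk₀ k hk
  rw [dist_eq_norm] at h1 ⊢
  have h2 := hd (Sum.inl (n, k, true))
  have h3 := hd (Sum.inl (n, k, false))
  have h4 := hd (Sum.inr (q n))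
  have h5 : ‖(((1/2 : ℝ)^n : ℝ) : 𝕜) * (f (Sum.inr (q n)) - g (Sum.inr (q n)))‖ < ε / 6 := by
    rw [norm_mul, RCLike.norm_ofReal, abs_of_nonneg (by positivity)]
    have h6 : (1/2 : ℝ)^n ≤ 1 := pow_le_one₀ (by norm_num) (by norm_num)
    calc (1/2 : ℝ)^n * ‖f (Sum.inr (q n)) - g (Sum.inr (q n))‖
        ≤ 1 * ‖f (Sum.inr (q n)) - g (Sum.inr (q n))‖ :=
          mul_le_mul_of_nonneg_right h6 (norm_nonneg _)
      _ < ε / 6 := by rw [one_mul]; exact h4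
  have e : f (Sum.inl (n, k, true)) - f (Sum.inl (n, k, false)) -
      (((1/2 : ℝ)^n : ℝ) : 𝕜) * f (Sum.inr (q n)) =
      (g (Sum.inl (n, k, true)) - g (Sum.inl (n, k, false)) -
        (((1/2 : ℝ)^n : ℝ) : 𝕜) * g (Sum.inr (q n))) +
      (f (Sum.inl (n, k, true)) - g (Sum.inl (n, k, true))) -
      (f (Sum.inl (n, k, false)) - g (Sum.inl (n, k, false))) -
      (((1/2 : ℝ)^n : ℝ) : 𝕜) * (f (Sum.inr (q n)) - g (Sum.inr (q n))) := by ring
  rw [e]
  refine lt_of_le_of_lt (norm_sub_le _ _) ?_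
  have h7 := norm_sub_le ((g (Sum.inl (n, k, true)) - g (Sum.inl (n, k, false)) -
        (((1/2 : ℝ)^n : ℝ) : 𝕜) * g (Sum.inr (q n))) +
      (f (Sum.inl (n, k, true)) - g (Sum.inl (n, k, true))))
      (f (Sum.inl (n, k, false)) - g (Sum.inl (n, k, false)))
  have h8 := norm_add_le (g (Sum.inl (n, k, true)) - g (Sum.inl (n, k, false)) -
        (((1/2 : ℝ)^n : ℝ) : 𝕜) * g (Sum.inr (q n)))
      (f (Sum.inl (n, k, true)) - g (Sum.inl (n, k, true)))
  linarith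

/-- the Banach space of the counterexample -/
def E : Type := {f : K →ᵇ 𝕜 // f ∈ X0 𝕜}

noncomputable instance instNE : NormedAddCommGroup (E 𝕜) := (X0 𝕜).normedAddCommGroup

noncomputable instance instSE : NormedSpace 𝕜 (E 𝕜) := (X0 𝕜).normedSpace

/-- the inclusion -/
noncomputable def J : E 𝕜 →ₗᵢ[𝕜] (K →ᵇ 𝕜) := (X0 𝕜).subtypeₗᵢ

instance instCE : CompleteSpace (E 𝕜) := (isClosed_X0 𝕜).completeSpace_coe

variable {𝕜}

theorem J_mem (x : E 𝕜) : J 𝕜 x ∈ X0 𝕜 := x.2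

theorem exists_J (f : K →ᵇ 𝕜) (hf : f ∈ X0 𝕜) : ∃ x : E 𝕜, J 𝕜 x = f := ⟨⟨f, hf⟩, rfl⟩

/-- a tent function -/
noncomputable def tent (r δ : ℝ) : ℝ → ℝ := fun s => max 0 (1 - |s - r| / δ)

theorem tent_le (r δ : ℝ) (hδ : 0 < δ) (s : ℝ) : tent r δ s ≤ 1 := by
  unfold tent
  apply max_le zero_le_one
  have : 0 ≤ |s - r| / δ := by positivity
  linarith

theorem tent_nonneg (r δ s : ℝ) : 0 ≤ tent r δ s := le_max_left _ _

theorem tent_self (r δ : ℝ) : tent r δ r = 1 := by simp [tent]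

theorem tent_eq_zero (r δ : ℝ) (hδ : 0 < δ) (s : ℝ) (hs : δ ≤ |s - r|) : tent r δ s = 0 := by
  unfold tent
  apply max_eq_left
  have : 1 ≤ |s - r| / δ := by rw [le_div_iff₀ hδ]; linarith
  linarith

theorem continuous_tent (r δ : ℝ) : Continuous (tent r δ) := by
  unfold tent
  fun_prop

/-- bumps around a point of the line outside the dense sequence -/
theorem exists_bump_at (V : Set ℝ) (hV : IsOpen V) (r : ℝ) (hr : r ∈ V) (ε : ℝ) (hε : 0 < ε)
    (hrq : ∀ n, (1/2 : ℝ)^n > ε → r ≠ q n) :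
    ∃ (h : E 𝕜) (β : K → ℝ), (∀ s, J 𝕜 h s = (β s : 𝕜)) ∧ β (Sum.inr r) = 1 ∧
      (∀ s, 0 ≤ β s ∧ β s ≤ 1) ∧
      (∀ γ, β (Sum.inl γ) ≤ ε) ∧ (∀ s, s ∉ V → β (Sum.inr s) = 0) := by
  obtain ⟨N, hN⟩ := exists_pow_lt_of_lt_one hε (show (1/2 : ℝ) < 1 by norm_num)
  let Fs : Set ℝ := q '' {n | n < N ∧ (1/2 : ℝ)^n > ε}
  have hFs : Fs.Finite := ((Set.finite_Iio N).subset (fun n hn => hn.1)).image _
  have hV' : IsOpen (V \ Fs) := hV.sdiff hFs.isClosed
  have hr' : r ∈ V \ Fs := by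
    refine ⟨hr, ?_⟩
    rintro ⟨n, hn, hnr⟩
    exact hrq n hn.2 hnr.symm
  obtain ⟨δ, hδ, hball⟩ := Metric.isOpen_iff.1 hV' r hr'
  have htent : ∀ s, s ∉ V \ Fs → tent r δ s = 0 := by
    intro s hs
    apply tent_eq_zero r δ hδ
    by_contra hcon
    push Not at hcon
    exact hs (hball (by rw [Metric.mem_ball, Real.dist_eq]; exact hcon))
  let φ : K → ℝ := Sum.elim (fun γ => if γ.2.2 then (1/2 : ℝ)^γ.1 * tent r δ (q γ.1) else 0) (tent r δ)
  have hφc : Continuous φ := continuous_of_discreteTopology.sumElim (continuous_tent r δ)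
  have hpow : ∀ n : ℕ, (1/2 : ℝ)^n ≤ 1 := fun n => pow_le_one₀ (by norm_num) (by norm_num)
  have hφ0 : ∀ s, 0 ≤ φ s := by
    rintro (⟨n, k, b⟩ | s)
    · simp only [φ, Sum.elim_inl]
      split_ifs
      · exact mul_nonneg (by positivity) (tent_nonneg _ _ _)
      · exact le_rfl
    · exact tent_nonneg _ _ _
  have hφ1 : ∀ s, φ s ≤ 1 := by
    rintro (⟨n, k, b⟩ | s)
    · simp only [φ, Sum.elim_inl]
      split_ifs
      · exact mul_le_one₀ (hpow n) (tent_nonneg _ _ _) (tent_le _ _ hδ _)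
      · exact zero_le_one
    · exact tent_le _ _ hδ _
  have hφε : ∀ γ, φ (Sum.inl γ) ≤ ε := by
    rintro ⟨n, k, b⟩
    simp only [φ, Sum.elim_inl]
    split_ifs
    · by_cases hn : n < N ∧ (1/2 : ℝ)^n > ε
      · rw [htent (q n) (fun hh => hh.2 ⟨n, hn, rfl⟩), mul_zero]; exact hε.le
      · have hle : (1/2 : ℝ)^n ≤ ε := by
          by_contra hcon
          push Not at hcon
          have hn2 : N ≤ n := by
            by_contra h3
            push Not at h3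
            exact hn ⟨h3, hcon⟩
          have := pow_le_pow_of_le_one (show (0:ℝ) ≤ 1/2 by norm_num) (by norm_num) hn2
          linarith
        calc (1/2 : ℝ)^n * tent r δ (q n) ≤ (1/2 : ℝ)^n * 1 :=
              mul_le_mul_of_nonneg_left (tent_le _ _ hδ _) (by positivity)
          _ = (1/2 : ℝ)^n := mul_one _
          _ ≤ ε := hle
    · exact hε.le
  let Φ : K →ᵇ 𝕜 := BoundedContinuousFunction.ofNormedAddCommGroup (fun s => ((φ s : ℝ) : 𝕜))
    (RCLike.continuous_ofReal.comp hφc) 1 (by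
    intro s
    rw [RCLike.norm_ofReal, abs_of_nonneg (hφ0 s)]
    exact hφ1 s)
  have hΦ : ∀ s, Φ s = ((φ s : ℝ) : 𝕜) := fun s => rfl
  have hmem : Φ ∈ X0 𝕜 := by
    rw [mem_X0]
    intro n
    simp [hΦ, φ]
  obtain ⟨x, hx⟩ := exists_J Φ hmem
  refine ⟨x, φ, ?_, ?_, ?_, ?_, ?_⟩
  · intro s; rw [hx, hΦ]
  · exact tent_self r δ
  · intro s; exact ⟨hφ0 s, hφ1 s⟩
  · intro γ; exact hφε γ
  · intro s hs; exact htent s (fun hh => hs hh.1)

theorem exists_good_point (V : Set ℝ) (hV : IsOpen V) (hVne : V.Nonempty) : ∃ r ∈ V, ∀ n, r ≠ q n := by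
  by_contra hcon
  push Not at hcon
  have h1 : V ⊆ Set.range q := by
    intro r hr
    obtain ⟨n, hn⟩ := hcon r hr
    exact ⟨n, hn.symm⟩
  have h2 : V.Countable := (Set.countable_range q).mono h1
  obtain ⟨v, hv⟩ := hVne
  obtain ⟨δ, hδ, hball⟩ := Metric.isOpen_iff.1 hV v hv
  have h3 : (Set.Ioo (v - δ) (v + δ)).Countable := by
    rw [← Real.ball_eq_Ioo]
    exact h2.mono hball
  exact (Cardinal.Real.Ioo_countable_iff.1 h3).not_gt (by linarith)

theorem rich_J : Rich (J 𝕜) := by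
  intro U hU hUne ε hε
  obtain ⟨p, hp⟩ := hUne
  rcases p with γ | r
  · -- a point of the discrete part
    let φ : K → ℝ := Sum.elim (fun γ' => if γ' = γ then 1 else 0) (fun _ => 0)
    have hφc : Continuous φ := continuous_of_discreteTopology.sumElim continuous_const
    have hφ : ∀ s, 0 ≤ φ s ∧ φ s ≤ 1 := by
      rintro (γ' | s)
      · simp only [φ, Sum.elim_inl]
        split_ifs <;> norm_num
      · simp [φ]
    let Φ : K →ᵇ 𝕜 := BoundedContinuousFunction.ofNormedAddCommGroup (fun s => ((φ s : ℝ) : 𝕜))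
      (RCLike.continuous_ofReal.comp hφc) 1 (by
      intro s
      rw [RCLike.norm_ofReal, abs_of_nonneg (hφ s).1]
      exact (hφ s).2)
    have hΦ : ∀ s, Φ s = ((φ s : ℝ) : 𝕜) := fun s => rfl
    have hmem : Φ ∈ X0 𝕜 := by
      rw [mem_X0]
      intro n
      simp only [hΦ, φ, Sum.elim_inl, Sum.elim_inr, RCLike.ofReal_zero, mul_zero]
      apply tendsto_const_nhds.congr'
      filter_upwards [eventually_gt_atTop γ.2.1] with k hk
      have h1 : (n, k, true) ≠ γ := by rintro rfl; simp at hk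
      have h2 : (n, k, false) ≠ γ := by rintro rfl; simp at hk
      simp [h1, h2]
    obtain ⟨x, hx⟩ := exists_J Φ hmem
    refine ⟨x, φ, ⟨Sum.inl γ, hp, by simp [φ]⟩, ?_, hφ, ?_⟩
    · intro s; rw [hx, hΦ]
    · rintro (γ' | s) hs
      · have : γ' ≠ γ := by rintro rfl; exact hs hp
        simp [φ, this, hε.le]
      · simp [φ, hε.le]
  · -- a point of the line
    obtain ⟨t, ht, htq⟩ := exists_good_point (Sum.inr ⁻¹' U) (hU.preimage continuous_inr) ⟨r, hp⟩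
    obtain ⟨h, β, h0, h1, h2, h3, h4⟩ := exists_bump_at (𝕜 := 𝕜) (Sum.inr ⁻¹' U)
      (hU.preimage continuous_inr) t ht ε hε (fun n _ => htq n)
    refine ⟨h, β, ⟨Sum.inr t, ht, h1⟩, h0, h2, ?_⟩
    rintro (γ | s) hs
    · exact h3 γ
    · rw [h4 s hs]; exact hε.le

theorem E_nontrivial : ∃ y : E 𝕜, y ≠ 0 := by
  obtain ⟨h, β, ⟨t, -, ht⟩, hJ, -, -⟩ := rich_J (𝕜 := 𝕜) Set.univ isOpen_univ
    ⟨Sum.inr 0, trivial⟩ 1 one_pos
  refine ⟨h, ?_⟩
  rintro rfl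
  have := hJ t
  rw [map_zero, ht] at this
  simp at this

end Space

section Extreme

variable {𝕜 : Type} [RCLike 𝕜]

theorem eq_zero_of_add_sub (u w : 𝕜) (hu : ‖u‖ = 1) (h1 : ‖u + w‖ ≤ 1) (h2 : ‖u - w‖ ≤ 1) : w = 0 := by
  have h := parallelogram_law_with_norm 𝕜 u w
  rw [hu] at h
  have h3 : ‖w‖ * ‖w‖ ≤ 0 := by nlinarith [norm_nonneg (u + w), norm_nonneg (u - w)]
  have h4 : ‖w‖ = 0 := by nlinarith [norm_nonneg w]
  exact norm_eq_zero.1 h4

/-- the extreme point of the ball -/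
theorem exists_extreme_point : ∃ x : E 𝕜, ‖x‖ ≤ 1 ∧
    (∀ y : E 𝕜, ‖x + y‖ ≤ 1 → ‖x - y‖ ≤ 1 → y = 0) ∧
    (∀ γ, J 𝕜 x (Sum.inl γ) = 1) ∧ (∀ r, J 𝕜 x (Sum.inr r) = 0) := by
  let φ : K → 𝕜 := Sum.elim (fun _ => 1) (fun _ => 0)
  have hφc : Continuous φ := continuous_const.sumElim continuous_const
  have hφ : ∀ s, ‖φ s‖ ≤ 1 := by
    rintro (γ' | s) <;> simp [φ]
  let Φ : K →ᵇ 𝕜 := BoundedContinuousFunction.ofNormedAddCommGroup φ hφc 1 hφ
  have hΦ : ∀ s, Φ s = φ s := fun s => rfl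
  have hmem : Φ ∈ X0 𝕜 := by
    rw [mem_X0]
    intro n
    simp [hΦ, φ]
  obtain ⟨x, hx⟩ := exists_J Φ hmem
  have hx1 : ∀ γ, J 𝕜 x (Sum.inl γ) = 1 := by intro γ; rw [hx, hΦ]; rfl
  have hx0 : ∀ r, J 𝕜 x (Sum.inr r) = 0 := by intro r; rw [hx, hΦ]; rfl
  refine ⟨x, ?_, ?_, hx1, hx0⟩
  · rw [← (J 𝕜).norm_map, BoundedContinuousFunction.norm_le zero_le_one]
    intro s
    rw [hx, hΦ]
    exact hφ s
  · intro y hy1 hy2
    have hp : ∀ s, ‖J 𝕜 x s + J 𝕜 y s‖ ≤ 1 := by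
      intro s
      have := BoundedContinuousFunction.norm_coe_le_norm (J 𝕜 (x + y)) s
      rw [(J 𝕜).norm_map, map_add] at this
      exact le_trans this hy1
    have hm : ∀ s, ‖J 𝕜 x s - J 𝕜 y s‖ ≤ 1 := by
      intro s
      have := BoundedContinuousFunction.norm_coe_le_norm (J 𝕜 (x - y)) s
      rw [(J 𝕜).norm_map, map_sub] at this
      exact le_trans this hy2
    have hy : ∀ γ, J 𝕜 y (Sum.inl γ) = 0 := by
      intro γ
      have h1 := hp (Sum.inl γ)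
      have h2 := hm (Sum.inl γ)
      rw [hx1 γ] at h1 h2
      exact eq_zero_of_add_sub 1 _ norm_one h1 h2
    have hyq : ∀ n, J 𝕜 y (Sum.inr (q n)) = 0 := by
      intro n
      have h1 := (mem_X0 _).1 (J_mem y) n
      simp only [hy, sub_zero] at h1
      have h2 := tendsto_nhds_unique h1 tendsto_const_nhds
      have h3 : (((1/2 : ℝ)^n : ℝ) : 𝕜) ≠ 0 := by
        rw [Ne, RCLike.ofReal_eq_zero]; positivity
      exact (mul_eq_zero.1 h2).resolve_left h3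
    have hyr : (fun r : ℝ => J 𝕜 y (Sum.inr r)) = fun _ => 0 := by
      apply Continuous.ext_on (s := Set.range q)
      · exact TopologicalSpace.denseRange_denseSeq ℝ
      · exact (J 𝕜 y).continuous.comp continuous_inr
      · exact continuous_const
      · rintro _ ⟨n, rfl⟩
        exact hyq n
    apply (J 𝕜).injective
    rw [map_zero]
    ext s
    rcases s with γ | r
    · exact hy γ
    · exact congrFun hyr r

/-- evaluation at a point of the line -/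
noncomputable def ev (r : ℝ) : E 𝕜 →L[𝕜] 𝕜 :=
  LinearMap.mkContinuous
    { toFun := fun x => J 𝕜 x (Sum.inr r)
      map_add' := fun x y => by rw [map_add]; rfl
      map_smul' := fun c x => by rw [map_smul]; rfl } 1
    (fun x => by
      rw [one_mul]
      have h := BoundedContinuousFunction.norm_coe_le_norm (J 𝕜 x) (Sum.inr r)
      rw [(J 𝕜).norm_map] at h
      exact h)

theorem ev_apply (r : ℝ) (x : E 𝕜) : ev r x = J 𝕜 x (Sum.inr r) := rfl

theorem norm_ev_le (r : ℝ) : ‖(ev r : E 𝕜 →L[𝕜] 𝕜)‖ ≤ 1 :=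
  LinearMap.mkContinuous_norm_le _ zero_le_one _

/-- evaluation at a point of the line outside the dense sequence is an extreme point of the dual ball -/
theorem ev_extreme (r : ℝ) (hr : ∀ n, r ≠ q n) (g : E 𝕜 →L[𝕜] 𝕜)
    (h1 : ‖ev r + g‖ ≤ 1) (h2 : ‖ev r - g‖ ≤ 1) : g = 0 := by
  -- the functional g vanishes on bumps
  have hb : ∀ h : E 𝕜, ‖h‖ ≤ 1 → J 𝕜 h (Sum.inr r) = 1 → g h = 0 := by
    intro h hh hr1
    have a1 := ((ev r : E 𝕜 →L[𝕜] 𝕜) + g).le_opNorm h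
    have a2 := ((ev r : E 𝕜 →L[𝕜] 𝕜) - g).le_opNorm h
    have b1 : ((ev r : E 𝕜 →L[𝕜] 𝕜) + g) h = 1 + g h := by
      rw [_root_.add_apply, ev_apply, hr1]
    have b2 : ((ev r : E 𝕜 →L[𝕜] 𝕜) - g) h = 1 - g h := by
      rw [_root_.sub_apply, ev_apply, hr1]
    rw [b1] at a1
    rw [b2] at a2
    have c1 : ‖1 + g h‖ ≤ 1 := a1.trans (mul_le_one₀ h1 (norm_nonneg _) hh)
    have c2 : ‖1 - g h‖ ≤ 1 := a2.trans (mul_le_one₀ h2 (norm_nonneg _) hh)
    exact eq_zero_of_add_sub 1 _ norm_one c1 c2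
  -- the functional g vanishes on the functions which vanish at r
  have hz : ∀ f : E 𝕜, ‖f‖ ≤ 1 → J 𝕜 f (Sum.inr r) = 0 → g f = 0 := by
    intro f hf hfr
    by_contra hg
    have hgp : 0 < ‖g f‖ := norm_pos_iff.2 hg
    obtain ⟨ε, hε⟩ : ∃ ε : ℝ, ε = ‖g f‖ / 2 := ⟨_, rfl⟩
    have hε0 : 0 < ε := by rw [hε]; linarith
    let V : Set ℝ := {s | ‖J 𝕜 f (Sum.inr s)‖ < ε}
    have hV : IsOpen V :=
      isOpen_lt (((J 𝕜 f).continuous.comp continuous_inr).norm) continuous_const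
    have hrV : r ∈ V := by
      show ‖J 𝕜 f (Sum.inr r)‖ < ε
      rw [hfr, norm_zero]; exact hε0
    obtain ⟨h, β, e0, e1, e2, e3, e4⟩ := exists_bump_at (𝕜 := 𝕜) V hV r hrV ε hε0 (fun n _ => hr n)
    have hhn : ‖h‖ ≤ 1 := by
      rw [← (J 𝕜).norm_map, BoundedContinuousFunction.norm_le zero_le_one]
      intro s
      rw [e0, RCLike.norm_ofReal, abs_of_nonneg (e2 s).1]
      exact (e2 s).2
    have hh1 : J 𝕜 h (Sum.inr r) = 1 := by rw [e0, e1]; simp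
    have hgh := hb h hhn hh1
    obtain ⟨b, hb1, hb2⟩ := exists_align (1 : 𝕜) (g f) 1 zero_le_one
    have hfs : ∀ s, ‖J 𝕜 f s‖ ≤ 1 := fun s =>
      (BoundedContinuousFunction.norm_coe_le_norm (J 𝕜 f) s).trans (by rw [(J 𝕜).norm_map]; exact hf)
    have hn : ‖h + b • f‖ ≤ 1 + ε := by
      rw [← (J 𝕜).norm_map, BoundedContinuousFunction.norm_le (by linarith)]
      intro s
      have e : J 𝕜 (h + b • f) s = J 𝕜 h s + b * J 𝕜 f s := by
        rw [map_add, map_smul]; rfl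
      rw [e]
      refine (norm_add_le _ _).trans ?_
      rw [norm_mul, hb1, one_mul, e0, RCLike.norm_ofReal, abs_of_nonneg (e2 s).1]
      rcases s with γ | s
      · linarith [e3 γ, hfs (Sum.inl γ)]
      · by_cases hs : s ∈ V
        · have : ‖J 𝕜 f (Sum.inr s)‖ < ε := hs
          linarith [(e2 (Sum.inr s)).2]
        · rw [e4 s hs]
          linarith [hfs (Sum.inr s)]
    have a1 := ((ev r : E 𝕜 →L[𝕜] 𝕜) + g).le_opNorm (h + b • f)
    have b1 : ((ev r : E 𝕜 →L[𝕜] 𝕜) + g) (h + b • f) = 1 + b * g f := by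
      rw [_root_.add_apply, ev_apply, map_add, map_smul, map_add, map_smul, hgh]
      show J 𝕜 h (Sum.inr r) + b * J 𝕜 f (Sum.inr r) + (0 + b * g f) = 1 + b * g f
      rw [hh1, hfr]; ring
    rw [b1, hb2, norm_one, one_mul] at a1
    have a2 : ‖(ev r : E 𝕜 →L[𝕜] 𝕜) + g‖ * ‖h + b • f‖ ≤ 1 * (1 + ε) :=
      mul_le_mul h1 hn (norm_nonneg _) zero_le_one
    linarith
  -- a bump to split with
  obtain ⟨h, β, e0, e1, e2, -, -⟩ := exists_bump_at (𝕜 := 𝕜) Set.univ isOpen_univ r trivial 1 one_pos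
    (fun n _ => hr n)
  have hhn : ‖h‖ ≤ 1 := by
    rw [← (J 𝕜).norm_map, BoundedContinuousFunction.norm_le zero_le_one]
    intro s
    rw [e0, RCLike.norm_ofReal, abs_of_nonneg (e2 s).1]
    exact (e2 s).2
  have hh1 : J 𝕜 h (Sum.inr r) = 1 := by rw [e0, e1]; simp
  have hgh := hb h hhn hh1
  have hz' : ∀ f : E 𝕜, J 𝕜 f (Sum.inr r) = 0 → g f = 0 := by
    intro f hfr
    by_cases hf : f = 0
    · rw [hf, map_zero]
    have hfn : ‖f‖ ≠ 0 := norm_ne_zero_iff.2 hf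
    have hfk : ((‖f‖ : ℝ) : 𝕜) ≠ 0 := by exact_mod_cast hfn
    have h5 := hz ((((‖f‖ : ℝ) : 𝕜)⁻¹) • f)
      (by rw [norm_smul, norm_inv, RCLike.norm_ofReal, abs_norm, inv_mul_cancel₀ hfn])
      (by
        rw [map_smul]
        show (((‖f‖ : ℝ) : 𝕜)⁻¹) * J 𝕜 f (Sum.inr r) = 0
        rw [hfr, mul_zero])
    rw [map_smul, smul_eq_mul] at h5
    exact (mul_eq_zero.1 h5).resolve_left (inv_ne_zero hfk)
  ext f
  have h6 := hz' (f - (J 𝕜 f (Sum.inr r)) • h) (by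
    rw [map_sub, map_smul]
    show J 𝕜 f (Sum.inr r) - J 𝕜 f (Sum.inr r) * J 𝕜 h (Sum.inr r) = 0
    rw [hh1]; ring)
  rw [map_sub, map_smul, hgh, smul_zero, sub_zero] at h6
  rw [h6]; rfl

end Extreme

end Pool.Agent.H.MP_ae5379_an.h81
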